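import Pool.Agent.V11276.DC8

namespace Pool.Agent.Results.MP_8a688e_nt.DivClosureConnected

open Pool.Agent.V11276.DC Filter Topology

/-- The complex divisor function `σ_c(n) = ∑_{d ∣ n} d^c`. -/
noncomputable def sigmaC (c : ℂ) (n : ℕ) : ℂ := ∑ d ∈ n.divisors, (d : ℂ) ^ c

/-- The closure of `σ_c(ℕ) = {σ_c(n) : n = 1, 2, 3, …}` in `ℂ`. -/
def clos (c : ℂ) : Set ℂ := closure {z : ℂ | ∃ n : ℕ, 1 ≤ n ∧ z = sigmaC c n}

/-- The number `𝒩(c)` of connected components of the closure of `σ_c(ℕ)`. -/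
noncomputable def numComp (c : ℂ) : ℕ∞ := ENat.card (ConnectedComponents (clos c))

lemma numComp_one {c : ℂ} (h : IsConnected (clos c)) : numComp c = 1 := by
  haveI : ConnectedSpace (clos c) := isConnected_iff_connectedSpace.mp h
  unfold numComp
  haveI : Subsingleton (ConnectedComponents (clos c)) := inferInstance
  haveI : Nonempty (ConnectedComponents (clos c)) := inferInstance
  haveI : Unique (ConnectedComponents (clos c)) := (nonempty_unique _).some
  rw [ENat.card_eq_coe_fintype_card, Fintype.card_unique]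
  rfl

lemma family (M : ℕ) (hM : 200 ≤ M) : ∃ ε : ℝ, 0 < ε ∧ ∀ a : ℝ, 1 < a → a < 1 + ε →
    IsConnected (clos (-(a : ℂ) + ((Real.pi / (2 * M * Real.log 4) : ℝ) : ℂ) * Complex.I)) := by
  have hev := all_RL (M := M) (b := Real.pi / (2 * M * Real.log 4)) ⟨hM, rfl⟩
  rw [eventually_nhdsWithin_iff, Metric.eventually_nhds_iff] at hev
  obtain ⟨ε, hε, h⟩ := hev
  refine ⟨ε, hε, fun a ha1 ha2 => ?_⟩
  have hd : dist a 1 < ε := by rw [Real.dist_eq, abs_of_pos (by linarith)]; linarith
  exact connected a _ ha1 (h hd ha1)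

/-- **Answer to Q1: yes.** There is a non-real `c` with `Re c < -1` for which the closure of
`σ_c(ℕ)` is connected, i.e. `𝒩(c) = 1`.  In fact for every `M ≥ 200` and `b = π / (2 M log 4)`,
every `c = -a + i b` with `a > 1` close enough to `1` has this property. -/
theorem result :
    (∃ c : ℂ, c.im ≠ 0 ∧ c.re < -1 ∧ IsConnected (clos c) ∧ numComp c = 1) ∧
    (∀ M : ℕ, 200 ≤ M → ∃ ε : ℝ, 0 < ε ∧ ∀ a : ℝ, 1 < a → a < 1 + ε →
      IsConnected (clos (-(a : ℂ) + ((Real.pi / (2 * M * Real.log 4) : ℝ) : ℂ) * Complex.I)) ∧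
      numComp (-(a : ℂ) + ((Real.pi / (2 * M * Real.log 4) : ℝ) : ℂ) * Complex.I) = 1) := by
  refine ⟨?_, ?_⟩
  · obtain ⟨ε, hε, h⟩ := family 200 le_rfl
    have hc := h (1 + ε / 2) (by linarith) (by linarith)
    refine ⟨_, ?_, ?_, hc, numComp_one hc⟩
    · have hb : (0:ℝ) < Real.pi / (2 * (200:ℕ) * Real.log 4) := by
        have := log4_pos
        positivity
      simp only [Complex.add_im, Complex.neg_im, Complex.ofReal_im, Complex.mul_im, Complex.ofReal_re,
        Complex.I_im, Complex.I_re]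
      simpa using hb.ne'
    · simp only [Complex.add_re, Complex.neg_re, Complex.ofReal_re, Complex.mul_re, Complex.ofReal_im,
        Complex.I_im, Complex.I_re]
      linarith
  · intro M hM
    obtain ⟨ε, hε, h⟩ := family M hM
    exact ⟨ε, hε, fun a h1 h2 => ⟨h a h1 h2, numComp_one (h a h1 h2)⟩⟩

end Pool.Agent.Results.MP_8a688e_nt.DivClosureConnected
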